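import Pool.Agent.W2helper30.AN.KL
import Pool.Agent.W2helper30.AN.Gen
import Pool.Agent.W2helper30.AN.Siz
import Pool.Agent.N794.DG.Near

/-!
# Random members of the families `c₀ + κ ⌊U f(x0 + 1 / m)⌋`, and exponential sums at irrational frequencies
-/

set_option autoImplicit false

namespace Pool.Agent.W2helper30.FP

open Finset Filter
open Pool.Agent.N794.DG (ex law Near Always meas law_near law_sum)
open Pool.Agent.W2helper30.AN (Ord Rg vl Sv)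

lemma ex_eq (x : ℝ) : ex x = Pool.Agent.Y933.KD.e x := by
  unfold ex Pool.Agent.Y933.KD.e
  congr 1
  push_cast
  ring

lemma ex_add' (x y : ℝ) : ex (x + y) = ex x * ex y := by
  unfold ex
  rw [← Complex.exp_add]
  congr 1
  push_cast
  ring

lemma ex_int (z : ℤ) : ex (z : ℝ) = 1 := by
  rw [ex_eq, Pool.Agent.W2helper30.AN.e_one_iff]
  exact ⟨z, rfl⟩

lemma norm_ex' (x : ℝ) : ‖ex x‖ = 1 := by
  unfold ex
  rw [Complex.norm_exp]
  simp

/-- the sums at an irrational frequency are small -/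
lemma irr_small {f : ℝ → ℝ} {x0 : ℝ} {k0 : ℕ} (hf : Ord f x0 k0) (δ0 ε : ℝ) (hδ0 : 0 < δ0)
    (hε : 0 < ε) (hε2 : ε < 1 / 2) {θ : ℝ} (hθ : Irrational θ) {η : ℝ} (hη : 0 < η) :
    ∃ M₀ : ℕ, ∀ M : ℕ, M₀ ≤ M → ∀ U : ℝ, Rg k0 δ0 ε M U →
      ‖∑ i ∈ Ioc M (2 * M), ex (θ * vl f x0 U i)‖ ≤ η * M := by
  obtain ⟨c, hc, N0, hN0⟩ := Pool.Agent.W2helper30.AN.floor_f hf δ0 ε hδ0 hε hε2
  obtain ⟨θ', hθ'⟩ : ∃ θ' : ℝ, θ' = θ - round θ := ⟨_, rfl⟩
  have h0 : θ' ≠ 0 := by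
    intro h
    apply hθ
    exact ⟨(round θ : ℤ), by push_cast; linarith⟩
  have h1 : |θ'| ≤ 1 / 2 := by
    rw [hθ']
    exact abs_sub_round θ
  have h2 : 0 < |θ'| := abs_pos.2 h0
  -- the saving tends to zero
  have h3 : Tendsto (fun M : ℕ => Real.exp (-(c * (Real.log M) ^ (2 * ε)))) atTop (nhds 0) := by
    apply Real.tendsto_exp_atBot.comp
    apply tendsto_neg_atTop_atBot.comp
    apply Tendsto.const_mul_atTop hc
    exact (tendsto_rpow_atTop (by linarith)).comp (Real.tendsto_log_atTop.comp tendsto_natCast_atTop_atTop)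
  have h4 := h3.eventually_le_const (show (0 : ℝ) < min |θ'| (η / 1042) from lt_min h2 (by positivity))
  obtain ⟨M₁, hM₁⟩ := eventually_atTop.1 h4
  refine ⟨M₁ + N0 + 2, fun M hM U hU => ?_⟩
  have h5 := hM₁ M (by omega)
  have hsv := hU.sv_ge hf.2.1 hδ0 (by omega : 2 ≤ M)
  have h6 : Real.exp (-(c * Sv M U)) ≤ Real.exp (-(c * (Real.log M) ^ (2 * ε))) := by
    apply Real.exp_le_exp.2
    have := mul_le_mul_of_nonneg_left hsv hc.le
    linarith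
  have h7 := hN0 M (by omega) U hU θ' h1 (h6.trans (h5.trans (min_le_left _ _)))
  have h8 : ∑ i ∈ Ioc M (2 * M), ex (θ * vl f x0 U i) =
      ∑ i ∈ Ioc M (2 * M), Pool.Agent.Y933.KD.e (θ' * ⌊U * f (x0 + 1 / i)⌋) := by
    refine sum_congr rfl fun i _ => ?_
    have e1 : θ * vl f x0 U i = θ' * ⌊U * f (x0 + 1 / i)⌋ + ((round θ * ⌊U * f (x0 + 1 / i)⌋ : ℤ) : ℝ) := by
      rw [hθ']
      unfold vl
      push_cast
      ring
    rw [e1, ex_add', ex_int, mul_one, ex_eq]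
  rw [h8]
  refine h7.trans ?_
  have hM0 : (0 : ℝ) ≤ M := Nat.cast_nonneg M
  have h9 : 1042 * Real.exp (-(c * Sv M U)) ≤ η := by
    have := h6.trans (h5.trans (min_le_right _ _))
    linarith
  nlinarith [mul_le_mul_of_nonneg_right h9 hM0]

/-- few members are small -/
lemma few_small {f : ℝ → ℝ} {x0 : ℝ} {k0 : ℕ} (hf : Ord f x0 k0) (δ0 ε : ℝ) (hδ0 : 0 < δ0)
    (κ : ℤ) (hκ : κ ≠ 0) (n₀ : ℕ) {η : ℝ} (hη : 0 < η) :
    ∃ M₀ : ℕ, ∀ M : ℕ, M₀ ≤ M → ∀ U : ℝ, Rg k0 δ0 ε M U → ∀ c₀ : ℤ,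
      (((Ioc M (2 * M)).filter (fun i => 0 ≤ c₀ + κ * vl f x0 U i ∧ c₀ + κ * vl f x0 U i < n₀)).card : ℝ) ≤
        η * M := by
  obtain ⟨σ, hσ, a, ha, N0, hN0, hgr⟩ := Pool.Agent.W2helper30.AN.growth_f hf
  have h1 := ((tendsto_rpow_atTop hδ0).comp (tendsto_natCast_atTop_atTop (R := ℝ))).eventually_ge_atTop
    (2 * ((n₀ + 1) / a) / η)
  obtain ⟨M₁, hM₁⟩ := eventually_atTop.1 h1
  obtain ⟨M₂, hM₂⟩ := exists_nat_ge (2 / η)
  refine ⟨M₁ + M₂ + N0 + 1, fun M hM U hU c₀ => ?_⟩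
  obtain ⟨S, hS⟩ : ∃ S, S = (Ioc M (2 * M)).filter
      (fun i => 0 ≤ c₀ + κ * vl f x0 U i ∧ c₀ + κ * vl f x0 U i < n₀) := ⟨_, rfl⟩
  rw [← hS]
  have hM0 : (0 : ℝ) < M := by exact_mod_cast (by omega : 0 < M)
  rcases S.eq_empty_or_nonempty with h2 | h2
  · rw [h2]
    simp only [card_empty, Nat.cast_zero]
    positivity
  · have hm := S.min'_mem h2
    have hm' := S.max'_mem h2
    obtain ⟨m, hme⟩ : ∃ m, m = S.min' h2 := ⟨_, rfl⟩
    obtain ⟨m', hme'⟩ : ∃ m', m' = S.max' h2 := ⟨_, rfl⟩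
    rw [← hme] at hm
    rw [← hme'] at hm'
    rw [hS, mem_filter, mem_Ioc] at hm hm'
    have hmm : m ≤ m' := by
      rw [hme, hme']
      exact S.min'_le_max' h2
    have h3 : S ⊆ Icc m m' := by
      intro i hi
      rw [mem_Icc, hme, hme']
      exact ⟨S.min'_le i hi, S.le_max' i hi⟩
    have h4 : (S.card : ℝ) ≤ (m' : ℝ) - m + 1 := by
      have := card_le_card h3
      rw [Nat.card_Icc] at this
      have h5 : ((m' + 1 - m : ℕ) : ℝ) = (m' : ℝ) - m + 1 := by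
        rw [Nat.cast_sub (by omega)]
        push_cast
        ring
      rw [← h5]
      exact_mod_cast this
    have hg := (hgr M (by omega) m m' hm.1.1 hmm hm'.1.2).1
    -- the difference of the values
    have h5 : |vl f x0 U m - vl f x0 U m'| ≤ n₀ := by
      have e1 : |κ * (vl f x0 U m - vl f x0 U m')| < n₀ := by
        rw [abs_lt]
        have e2 : κ * (vl f x0 U m - vl f x0 U m') = (c₀ + κ * vl f x0 U m) - (c₀ + κ * vl f x0 U m') := by ring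
        rw [e2]
        obtain ⟨-, b1, b2⟩ := hm
        obtain ⟨-, b3, b4⟩ := hm'
        constructor <;> linarith
      rw [abs_mul] at e1
      have e3 : 1 ≤ |κ| := Int.one_le_abs hκ
      have e4 := abs_nonneg (vl f x0 U m - vl f x0 U m')
      nlinarith
    have h6 : |U * f (x0 + 1 / m) - U * f (x0 + 1 / m')| ≤ n₀ + 1 := by
      have b1 := Int.floor_le (U * f (x0 + 1 / m))
      have b2 := Int.lt_floor_add_one (U * f (x0 + 1 / m))
      have b3 := Int.floor_le (U * f (x0 + 1 / m'))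
      have b4 := Int.lt_floor_add_one (U * f (x0 + 1 / m'))
      have b5 : |((vl f x0 U m : ℤ) : ℝ) - (vl f x0 U m' : ℤ)| ≤ n₀ := by exact_mod_cast h5
      unfold vl at b5
      rw [abs_le] at b5 ⊢
      constructor <;> linarith [b5.1, b5.2]
    have hU0 : 0 < U := lt_of_lt_of_le (by positivity) hU.lo
    have h7 : U * ((a / (M : ℝ) ^ (k0 + 1)) * ((m' : ℝ) - m)) ≤ n₀ + 1 := by
      refine (mul_le_mul_of_nonneg_left hg hU0.le).trans ?_
      have e1 : U * (σ * f (x0 + 1 / m) - σ * f (x0 + 1 / m')) =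
          σ * (U * f (x0 + 1 / m) - U * f (x0 + 1 / m')) := by ring
      rw [e1]
      have hσ1 : |σ| = 1 := by
        have : |σ| * |σ| = 1 := by rw [← abs_mul, hσ, abs_one]
        nlinarith [abs_nonneg σ]
      refine (le_abs_self _).trans ?_
      rw [abs_mul, hσ1, one_mul]
      exact h6
    have h8 : (M : ℝ) ^ ((k0 : ℝ) + δ0) = (M : ℝ) ^ k0 * (M : ℝ) ^ δ0 := by
      rw [Real.rpow_add hM0, Real.rpow_natCast]
    have h9 : (M : ℝ) ^ δ0 * a * ((m' : ℝ) - m) ≤ (n₀ + 1) * M := by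
      have hd : (0 : ℝ) ≤ (m' : ℝ) - m := by
        have : (m : ℝ) ≤ m' := by exact_mod_cast hmm
        linarith
      have e1 : (M : ℝ) ^ k0 * (M : ℝ) ^ δ0 ≤ U := by
        rw [← h8]
        exact hU.lo
      have e2 : (M : ℝ) ^ k0 * (M : ℝ) ^ δ0 * ((a / (M : ℝ) ^ (k0 + 1)) * ((m' : ℝ) - m)) ≤ n₀ + 1 :=
        (mul_le_mul_of_nonneg_right e1 (by positivity)).trans h7
      have e3 : (M : ℝ) ^ k0 * (M : ℝ) ^ δ0 * ((a / (M : ℝ) ^ (k0 + 1)) * ((m' : ℝ) - m)) =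
          (M : ℝ) ^ δ0 * a * ((m' : ℝ) - m) / M := by
        rw [pow_succ]
        field_simp
      rw [e3, div_le_iff₀ hM0] at e2
      exact e2
    have h10 : 2 * ((n₀ + 1) / a) / η ≤ (M : ℝ) ^ δ0 := hM₁ M (by omega)
    have h11 : (m' : ℝ) - m ≤ η / 2 * M := by
      have hd : (0 : ℝ) ≤ (m' : ℝ) - m := by
        have : (m : ℝ) ≤ m' := by exact_mod_cast hmm
        linarith
      rw [div_le_iff₀ hη, mul_div_assoc'] at h10
      rw [div_le_iff₀ ha] at h10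
      -- `2 (n₀ + 1) ≤ M ^ δ0 * η * a`
      have h12 : 2 * (n₀ + 1) * ((m' : ℝ) - m) ≤ η * ((n₀ + 1) * M) := by
        calc 2 * (n₀ + 1) * ((m' : ℝ) - m) ≤ ((M : ℝ) ^ δ0 * η * a) * ((m' : ℝ) - m) :=
              mul_le_mul_of_nonneg_right h10 hd
          _ = η * ((M : ℝ) ^ δ0 * a * ((m' : ℝ) - m)) := by ring
          _ ≤ η * ((n₀ + 1) * M) := mul_le_mul_of_nonneg_left h9 hη.le
      have hn : (0 : ℝ) < n₀ + 1 := by positivity
      nlinarith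
    have h12 : 1 ≤ η / 2 * M := by
      have e1 : 2 / η ≤ M := hM₂.trans (by exact_mod_cast (by omega : M₂ ≤ M))
      rw [div_le_iff₀ hη] at e1
      linarith
    linarith

/-- the random members of the families -/
theorem always_an {Q : (ℕ →₀ ℝ) → Prop} (hQ : Always Q) {f : ℝ → ℝ} {x0 : ℝ} {k0 : ℕ} (hf : Ord f x0 k0)
    (δ0 ε : ℝ) (hδ0 : 0 < δ0) (hε : 0 < ε) (hε2 : ε < 1 / 2) (κ : ℤ) (hκ : κ ≠ 0) :
    ∃ M₀ : ℕ, ∀ M : ℕ, M₀ ≤ M → ∀ U : ℝ, Rg k0 δ0 ε M U → ∀ c₀ : ℤ,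
      (∀ i ∈ Ioc M (2 * M), 0 ≤ c₀ + κ * vl f x0 U i) →
      Q (law (Ioc M (2 * M)) (fun _ => 1 / (M : ℝ)) (fun i => (c₀ + κ * vl f x0 U i).toNat)) := by
  classical
  obtain ⟨Θ, hΘ, η, hη, n₀, h⟩ := hQ
  have hk : ∀ θ : ℝ, ∃ M₀ : ℕ, θ ∈ Θ → ∀ M : ℕ, M₀ ≤ M → ∀ U : ℝ, Rg k0 δ0 ε M U →
      ‖∑ i ∈ Ioc M (2 * M), ex (θ * κ * vl f x0 U i)‖ ≤ η * M := by
    intro θ
    by_cases h0 : θ ∈ Θ
    · obtain ⟨M₀, hM₀⟩ := irr_small hf δ0 ε hδ0 hε hε2 ((hΘ θ h0).mul_intCast hκ) hη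
      exact ⟨M₀, fun _ => hM₀⟩
    · exact ⟨0, fun h1 => absurd h1 h0⟩
  choose K hK using hk
  obtain ⟨M₁, hM₁⟩ := few_small hf δ0 ε hδ0 κ hκ n₀ hη
  refine ⟨Θ.sup K + M₁ + 1, fun M hM U hU c₀ hpos => h _ ?_⟩
  have hM0 : (0 : ℝ) < M := by exact_mod_cast (by omega : 0 < M)
  have hcast : ∀ i ∈ Ioc M (2 * M), (((c₀ + κ * vl f x0 U i).toNat : ℕ) : ℝ) = c₀ + κ * vl f x0 U i := by
    intro i hi
    have e1 := Int.toNat_of_nonneg (hpos i hi)
    have e2 : ((((c₀ + κ * vl f x0 U i).toNat : ℕ) : ℤ) : ℝ) = ((c₀ + κ * vl f x0 U i : ℤ) : ℝ) := by rw [e1]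
    push_cast at e2
    exact e2
  refine law_near (fun _ _ => by positivity) ?_ _ (fun θ hθ => ?_) ?_
  · rw [sum_const, Pool.Agent.W2helper30.AN.card_M, nsmul_eq_mul, mul_one_div_cancel hM0.ne']
  · have h1 : ∑ i ∈ Ioc M (2 * M), ((1 / (M : ℝ) : ℝ) : ℂ) * ex (θ * ((c₀ + κ * vl f x0 U i).toNat : ℕ)) =
        (((1 / (M : ℝ) : ℝ) : ℂ) * ex (θ * c₀)) * ∑ i ∈ Ioc M (2 * M), ex (θ * κ * vl f x0 U i) := by
      rw [mul_sum]
      refine sum_congr rfl fun i hi => ?_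
      rw [hcast i hi]
      have e1 : θ * (c₀ + κ * vl f x0 U i) = θ * c₀ + θ * κ * vl f x0 U i := by ring
      rw [e1, ex_add']
      ring
    rw [h1, norm_mul, norm_mul, norm_ex', mul_one, Complex.norm_real, Real.norm_of_nonneg (by positivity)]
    have h2 := hK θ hθ M ((le_sup hθ).trans (by omega)) U hU
    rw [one_div_mul_eq_div, div_le_iff₀ hM0]
    exact h2
  · have h2 := hM₁ M (by omega) U hU c₀
    rw [← sum_filter, sum_const, nsmul_eq_mul, mul_one_div, div_le_iff₀ hM0]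
    refine le_trans (Nat.cast_le.2 (card_le_card fun i hi => ?_)) h2
    rw [mem_filter] at hi ⊢
    have h3 := hpos i hi.1
    refine ⟨hi.1, h3, ?_⟩
    omega

/-- the probability of a property for a law -/
lemma meas_law {ι : Type} (Ω : Finset ι) (w : ι → ℝ) (x : ι → ℕ) (P : ℕ → Prop) [DecidablePred P] :
    meas (law Ω w x) P = ∑ i ∈ Ω, if P (x i) then w i else 0 := by
  have h := law_sum Ω w x (fun m a => if P m then a else 0) (fun m => by simp)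
    (fun m a b => by split_ifs <;> simp)
  rw [← h]
  unfold meas
  rw [sum_filter]
  refine sum_congr rfl fun m _ => ?_
  split_ifs <;> rfl

end Pool.Agent.W2helper30.FP
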