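import Pool.Agent.N794.DG.Fat

/-!
# Progressions of settled multiplicities at random
-/

set_option autoImplicit false

namespace Pool.Agent.W2helper30.FP

open Finset Filter
open Pool.Agent.N794.DG
open Pool.Agent.N141.SG

/-- simultaneous approximation -/
lemma dirichlet {ι : Type} [Finite ι] (α : ι → ℝ) {η : ℝ} (hη : 0 < η) :
    ∃ h : ℕ, 1 ≤ h ∧ ∀ j, ∃ z : ℤ, |α j * h - z| ≤ η := by
  obtain ⟨N, hN⟩ := exists_nat_gt (1 / η)
  have hN0 : (0 : ℝ) < N := lt_of_le_of_lt (by positivity) hN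
  have key : ∀ (j : ι) (h : ℕ), ⌊(N : ℝ) * Int.fract (α j * h)⌋₊ < N := by
    intro j h
    rw [Nat.floor_lt (mul_nonneg hN0.le (Int.fract_nonneg _))]
    have := Int.fract_lt_one (α j * h)
    nlinarith
  obtain ⟨x, y, hxy, he⟩ := Finite.exists_ne_map_eq_of_infinite
    (fun h : ℕ => fun j : ι => (⟨⌊(N : ℝ) * Int.fract (α j * h)⌋₊, key j h⟩ : Fin N))
  have main : ∀ x y : ℕ, x < y →
      (fun j : ι => (⟨⌊(N : ℝ) * Int.fract (α j * x)⌋₊, key j x⟩ : Fin N)) =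
        (fun j : ι => (⟨⌊(N : ℝ) * Int.fract (α j * y)⌋₊, key j y⟩ : Fin N)) →
      ∃ h : ℕ, 1 ≤ h ∧ ∀ j, ∃ z : ℤ, |α j * h - z| ≤ η := by
    intro x y hlt he
    refine ⟨y - x, by omega, fun j => ⟨⌊α j * y⌋ - ⌊α j * x⌋, ?_⟩⟩
    have h1 := congrFun he j
    simp only [Fin.mk.injEq] at h1
    have a1 := Nat.floor_le (mul_nonneg hN0.le (Int.fract_nonneg (α j * x)))
    have a2 := Nat.lt_floor_add_one ((N : ℝ) * Int.fract (α j * x))
    have a3 := Nat.floor_le (mul_nonneg hN0.le (Int.fract_nonneg (α j * y)))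
    have a4 := Nat.lt_floor_add_one ((N : ℝ) * Int.fract (α j * y))
    rw [h1] at a1 a2
    have e1 := Int.floor_add_fract (α j * x)
    have e2 := Int.floor_add_fract (α j * y)
    have e3 : α j * ((y - x : ℕ) : ℝ) - ((⌊α j * y⌋ - ⌊α j * x⌋ : ℤ) : ℝ) =
        Int.fract (α j * y) - Int.fract (α j * x) := by
      rw [Nat.cast_sub hlt.le]
      push_cast
      rw [mul_sub]
      linarith
    rw [e3]
    have h2 : (N : ℝ) * |Int.fract (α j * y) - Int.fract (α j * x)| ≤ 1 := by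
      have : (N : ℝ) * |Int.fract (α j * y) - Int.fract (α j * x)| =
          |(N : ℝ) * Int.fract (α j * y) - N * Int.fract (α j * x)| := by
        rw [← mul_sub, abs_mul, abs_of_pos hN0]
      rw [this, abs_le]
      constructor <;> linarith
    have h3 : 1 ≤ η * N := by
      rw [div_lt_iff₀ hη] at hN
      linarith
    have h4 : (N : ℝ) * |Int.fract (α j * y) - Int.fract (α j * x)| ≤ N * η := by linarith
    exact le_of_mul_le_mul_left h4 hN0
  rcases lt_or_gt_of_ne hxy with h | h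
  · exact main x y h he
  · exact main y x h he.symm

/-- shifting a window -/
lemma shift_win {α β : ℝ} {m j h k : ℕ} {w z : ℤ} {η : ℝ} (hj : j ≤ k) (hz : |α * h - z| * k ≤ η) :
    |(α * m + β - ((w - j * z : ℤ) : ℝ)) - (α * ((m + j * h : ℕ) : ℝ) + β - w)| ≤ η := by
  have e : (α * m + β - ((w - j * z : ℤ) : ℝ)) - (α * ((m + j * h : ℕ) : ℝ) + β - w) = -((α * h - z) * j) := by
    push_cast
    ring
  rw [e, abs_neg, abs_mul, abs_of_nonneg (show (0 : ℝ) ≤ (j : ℝ) from Nat.cast_nonneg j)]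
  have hj' : (j : ℝ) ≤ k := by exact_mod_cast hj
  exact (mul_le_mul_of_nonneg_left hj' (abs_nonneg _)).trans hz

theorem arc_prog {α : ℝ} (hα : Irrational α) (β : ℝ) {lo hi : ℝ} (hlh : lo ≤ hi) {δ : ℝ} (hδ : 0 < δ)
    (bad : ℕ → Prop) (hbad : ∀ m : ℕ, 1 ≤ m → bad m → ∃ z : ℤ, lo ≤ α * m + β - z ∧ α * m + β - z ≤ hi)
    (k h : ℕ) (z : ℤ) (hz : |α * h - z| * k ≤ δ / 4) :
    Always fun μ => meas μ (fun m => ∃ j ≤ k, bad (m + j * h)) ≤ hi - lo + δ := by
  have h1 := always_arc hα β (lo := lo - δ / 4) (hi := hi + δ / 4) (by linarith) (δ := δ / 2) (by linarith) 1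
    (fun m => ∃ j ≤ k, bad (m + j * h)) (fun m hm hb => by
      obtain ⟨j, hj, hb⟩ := hb
      obtain ⟨w, h1, h2⟩ := hbad (m + j * h) (hm.trans (Nat.le_add_right _ _)) hb
      have h3 := shift_win (α := α) (β := β) (m := m) (w := w) hj hz
      rw [abs_le] at h3
      exact ⟨w - j * z, by linarith [h3.1], by linarith [h3.2]⟩)
  have e : hi + δ / 4 - (lo - δ / 4) + δ / 2 = hi - lo + δ := by ring
  rw [e] at h1
  exact h1

lemma always_true : Always fun _ => True := ⟨∅, by simp, 1, one_pos, 0, fun _ _ => trivial⟩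

lemma Always.both {Q R : (ℕ →₀ ℝ) → Prop} (hQ : Always Q) (hR : Always R) : Always fun μ => Q μ ∧ R μ := by
  classical
  obtain ⟨Θ, hΘ, ε, hε, n, h1⟩ := hQ
  obtain ⟨Θ', hΘ', ε', hε', n', h2⟩ := hR
  refine ⟨Θ ∪ Θ', fun θ hθ => ?_, min ε ε', lt_min hε hε', max n n', fun μ hμ => ⟨h1 μ ?_, h2 μ ?_⟩⟩
  · rcases mem_union.1 hθ with h | h
    · exact hΘ θ h
    · exact hΘ' θ h
  · refine ⟨hμ.nonneg, hμ.sum_one, fun θ hθ => (hμ.small θ (mem_union_left _ hθ)).trans (min_le_left _ _), ?_⟩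
    refine (sum_le_sum_of_subset_of_nonneg (range_mono (le_max_left _ _)) fun m _ _ => hμ.nonneg m).trans
      (hμ.few.trans (min_le_left _ _))
  · refine ⟨hμ.nonneg, hμ.sum_one, fun θ hθ => (hμ.small θ (mem_union_right _ hθ)).trans (min_le_right _ _), ?_⟩
    refine (sum_le_sum_of_subset_of_nonneg (range_mono (le_max_right _ _)) fun m _ _ => hμ.nonneg m).trans
      (hμ.few.trans (min_le_right _ _))

lemma Always.all (Q : ℕ → (ℕ →₀ ℝ) → Prop) (N : ℕ) (h : ∀ r < N, Always (Q r)) :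
    Always fun μ => ∀ r < N, Q r μ := by
  induction N with
  | zero => exact Pool.Agent.N794.DG.Always.mono always_true fun μ _ _ r hr => absurd hr (by omega)
  | succ N ih =>
    have h1 := Always.both (ih fun r hr => h r (by omega)) (h N (by omega))
    refine Pool.Agent.N794.DG.Always.mono h1 fun μ _ h2 r hr => ?_
    rcases Nat.lt_succ_iff_lt_or_eq.1 hr with h3 | h3
    · exact h2.1 r h3
    · rw [h3]
      exact h2.2

/-- one number of points -/
theorem one_prog {n : ℕ} (hn : 10 ≤ n) (hC : ¬ (37 ≤ n ∨ n = 13 ∨ n = 21 ∨ IsSquare n)) {δ : ℝ} (hδ : 0 < δ)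
    (k h : ℕ) (hz : ∃ z : ℤ, |√(n : ℝ) / 3 * h - z| * k ≤ δ / 12) :
    Always fun μ => meas μ (fun m => ∃ j ≤ k, ¬ Ex n (m + j * h)) ≤ badU n + δ := by
  classical
  have hs3 := three_lt hn
  obtain ⟨z, hz⟩ := hz
  have hsq : ¬ IsSquare n := fun h0 => hC (Or.inr (Or.inr (Or.inr h0)))
  have hirr : Irrational √(n : ℝ) := irrational_sqrt_natCast_iff.2 hsq
  by_cases h11 : n = 11 ∨ n = 15
  · have e : badU n = 0 - (-((√(n : ℝ) - 3) / 6)) := by
      unfold badU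
      rw [if_neg hC, if_pos h11]
      ring
    rw [e]
    have hirr3 : Irrational (√(n : ℝ) / 3) := by
      have := hirr.div_natCast (m := 3) (by norm_num)
      simpa using this
    refine arc_prog hirr3 0 (by linarith) hδ (fun m => ¬ Ex n m) (fun m hm hbad => ?_) k h z (by linarith)
    obtain ⟨d, -, h1, h2, h3⟩ := open_of hn hm hbad
    obtain ⟨⟨z, rfl⟩, h4, h5⟩ := h3 h11
    push_cast at h4 h5
    refine ⟨z, ?_, ?_⟩
    · push_cast
      linarith
    · push_cast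
      linarith
  · obtain ⟨g1, g2⟩ := win_nonneg hn
    have e : badU n = min (√(n : ℝ) - 3) (2 / 3 + 9 / (4 * √(n : ℝ))) / 2 -
        (-(min (√(n : ℝ) - 3) (2 / 3 + 1 / (4 * √(n : ℝ))) / 2)) := by
      unfold badU
      rw [if_neg hC, if_neg h11]
      ring
    rw [e]
    have hz' : |√(n : ℝ) * h - ((3 * z : ℤ) : ℝ)| * k ≤ δ / 4 := by
      have e1 : √(n : ℝ) * h - ((3 * z : ℤ) : ℝ) = 3 * (√(n : ℝ) / 3 * h - z) := by
        push_cast
        ring
      rw [e1, abs_mul, abs_of_pos (show (0 : ℝ) < 3 by norm_num)]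
      linarith
    refine arc_prog hirr ((√(n : ℝ) - 3) / 2) (by linarith) hδ (fun m => ¬ Ex n m) (fun m hm hbad => ?_) k h (3 * z) hz'
    obtain ⟨d, -, h1, h2, -⟩ := open_of hn hm hbad
    refine ⟨d, ?_, ?_⟩
    · push_cast
      linarith
    · push_cast
      linarith

/-- all the radicands at once -/
theorem tgt_prog (k h : ℕ) (hz : ∀ n : ℕ, n < 37 → ∃ z : ℤ, |√(n : ℝ) / 3 * h - z| * k ≤ 1 / 120000) :
    Always fun μ => 1 / 10 ^ 65 ≤ meas μ fun m => 1 ≤ m ∧ ∀ j ≤ k, Tgt ((m + j * h : ℕ) : ℤ) := by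
  have hr : ∀ i : Fin 20, ∃ z : ℤ, |√(rad i.succ : ℝ) * h - z| * k ≤ 1 / 40000 := by
    intro i
    have hlt : rad i.succ < 37 := by
      fin_cases i <;> simp [rad]
    obtain ⟨z, hz⟩ := hz _ hlt
    refine ⟨3 * z, ?_⟩
    have e1 : √(rad i.succ : ℝ) * h - ((3 * z : ℤ) : ℝ) = 3 * (√(rad i.succ : ℝ) / 3 * h - z) := by
      push_cast
      ring
    rw [e1, abs_mul, abs_of_pos (show (0 : ℝ) < 3 by norm_num)]
    linarith
  have h1 := always_box (r := 20) (fun j => √(rad j.succ : ℝ)) rad_irr (fun j => √(rad j.succ : ℝ) / 2)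
    (fun j => ((cell j.succ : ℝ) - 5 / 2) / 10000) (3 / 10000) (1 / 40000) ((2 * (3 / 10000)) ^ 20 - 1 / 10 ^ 65)
    (by norm_num) (by norm_num) (by norm_num) (by norm_num) 1 (fun m => 1 ≤ m ∧ ∀ j ≤ k, Tgt ((m + j * h : ℕ) : ℤ))
    (fun m hm hz => by
      refine ⟨hm, fun i₀ hi₀ j hj => ?_⟩
      have hj0 : j ≠ 0 := fun h0 => hj (by rw [h0]; rfl)
      obtain ⟨i, rfl⟩ := Fin.exists_succ_eq.2 hj0
      obtain ⟨z, hz'⟩ := hz i
      obtain ⟨y, hy⟩ := hr i
      have h3 := shift_win (α := √(rad i.succ : ℝ)) (β := √(rad i.succ : ℝ) / 2) (m := m) (w := z + i₀ * y) hi₀ hy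
      have hz : |√(rad i.succ : ℝ) * m + √(rad i.succ : ℝ) / 2 - ((cell i.succ : ℝ) - 5 / 2) / 10000 - z| ≤
        3 / 10000 + 1 / 40000 := hz'
      have e1 : ((z + i₀ * y - i₀ * y : ℤ) : ℝ) = z := by
        push_cast
        ring
      rw [e1, abs_le] at h3
      rw [abs_le] at hz
      refine ⟨z + i₀ * y, ?_, ?_⟩
      · have := hz.1
        have := h3.2
        rw [show (((m + i₀ * h : ℕ) : ℤ) : ℝ) = ((m + i₀ * h : ℕ) : ℝ) from by norm_cast]
        linarith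
      · have := hz.2
        have := h3.1
        rw [show (((m + i₀ * h : ℕ) : ℤ) : ℝ) = ((m + i₀ * h : ℕ) : ℝ) from by norm_cast]
        linarith)
  rwa [sub_sub_cancel] at h1

/-- **progressions of settled multiplicities** -/
theorem always_prog (k : ℕ) {δ : ℝ} (hδ : 0 < δ) : ∃ h : ℕ, 1 ≤ h ∧ Always fun μ =>
    (∀ r : ℕ, 10 ≤ r → meas μ (fun m => ∃ j ≤ k, ¬ Ex r (m + j * h)) ≤ badU r + δ) ∧
    1 / 10 ^ 65 ≤ meas μ fun m => 1 ≤ m ∧ ∀ j ≤ k, Tgt ((m + j * h : ℕ) : ℤ) := by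
  classical
  obtain ⟨h, hh, hz⟩ := dirichlet (fun n : Fin 37 => √((n : ℕ) : ℝ) / 3)
    (η := min (δ / 12) (1 / 120000) / (k + 1)) (by positivity)
  have hz' : ∀ n : ℕ, n < 37 → ∃ z : ℤ, |√(n : ℝ) / 3 * h - z| * k ≤ min (δ / 12) (1 / 120000) := by
    intro n hn
    obtain ⟨z, hz⟩ := hz ⟨n, hn⟩
    refine ⟨z, ?_⟩
    have h1 : |√(n : ℝ) / 3 * h - z| ≤ min (δ / 12) (1 / 120000) / (k + 1) := hz
    have hk : (0 : ℝ) < k + 1 := by positivity
    rw [le_div_iff₀ hk] at h1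
    refine le_trans ?_ h1
    apply mul_le_mul_of_nonneg_left (by linarith) (abs_nonneg _)
  refine ⟨h, hh, ?_⟩
  -- nothing is bad in these cases
  have h0 : Always fun μ => meas μ (fun m => m < 1) ≤ δ := always_none hδ 1 _ (fun m hm hb => absurd hb (by omega))
  have h1 : Always fun μ => ∀ r < 37, (10 ≤ r → ¬ (37 ≤ r ∨ r = 13 ∨ r = 21 ∨ IsSquare r) →
      meas μ (fun m => ∃ j ≤ k, ¬ Ex r (m + j * h)) ≤ badU r + δ) := by
    refine Always.all _ 37 fun r hr => ?_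
    by_cases h2 : 10 ≤ r ∧ ¬ (37 ≤ r ∨ r = 13 ∨ r = 21 ∨ IsSquare r)
    · obtain ⟨z, hz⟩ := hz' r hr
      exact Pool.Agent.N794.DG.Always.mono (one_prog h2.1 h2.2 hδ k h ⟨z, hz.trans (min_le_left _ _)⟩)
        fun μ _ h3 _ _ => h3
    · exact Pool.Agent.N794.DG.Always.mono always_true fun μ _ _ h3 h4 => absurd ⟨h3, h4⟩ h2
  have h2 := tgt_prog k h fun n hn => by
    obtain ⟨z, hz⟩ := hz' n hn
    exact ⟨z, hz.trans (min_le_right _ _)⟩
  refine Pool.Agent.N794.DG.Always.mono (Always.both h0 (Always.both h1 h2)) fun μ hμ h3 => ⟨fun r hr => ?_, h3.2.2⟩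
  by_cases hC : 37 ≤ r ∨ r = 13 ∨ r = 21 ∨ IsSquare r
  · have e : badU r = 0 := by
      unfold badU
      rw [if_pos hC]
    rw [e, zero_add]
    refine (meas_mono hμ fun m hm => ?_).trans h3.1
    by_contra hm1
    obtain ⟨j, -, hbad⟩ := hm
    obtain ⟨d, hd⟩ := open_of hr ((show 1 ≤ m by omega).trans (Nat.le_add_right _ _)) hbad
    exact hd.1 hC
  · exact h3.2.1 r (by omega) hr hC

end Pool.Agent.W2helper30.FP
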