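import Pool.Agent.W2helper30.FP.Prog
import Pool.Agent.N141.SG.Near

/-!
# Near-uniform multiplicities with a random sum
-/

set_option autoImplicit false

namespace Pool.Agent.W2helper30.FP

open Finset Filter
open Pool.Agent.N794.DG
open Pool.Agent.N141.SG
open Pool.Agent.TH885.NW (loW upW win_len)

/-- one number of points -/
theorem near_prog {n : ℕ} (hn : 10 ≤ n) (k h : ℕ) {δ : ℝ} (hδ : 0 < δ)
    (hz : ∃ z : ℤ, |(√(n : ℝ))⁻¹ * h - z| * k ≤ δ / 4) :
    Always fun μ => meas μ (fun W => ∃ j ≤ k, ¬ GoodN n (W + j * h)) ≤ badN n + δ := by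
  classical
  by_cases hsq : IsSquare n
  · have e : badN n = 0 := by
      unfold badN
      rw [if_pos hsq]
    rw [e, zero_add]
    refine Pool.Agent.N794.DG.Always.mono always_true fun μ _ _ => ?_
    have h0 : meas μ (fun W => ∃ j ≤ k, ¬ GoodN n (W + j * h)) = 0 := by
      unfold meas
      apply sum_eq_zero
      intro m hm
      simp only [mem_filter] at hm
      obtain ⟨-, j, -, hb⟩ := hm
      exact absurd (good_sq hn hsq _) hb
    rw [h0]
    exact hδ.le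
  · have hirr : Irrational (√(n : ℝ))⁻¹ := (irrational_sqrt_natCast_iff.2 hsq).inv
    obtain ⟨g1, g2, g3⟩ := win_len hn
    have e : badN n = loW n / 2 - (-(upW n / 2)) := by
      unfold badN loW upW
      rw [if_neg hsq]
      ring
    rw [e]
    obtain ⟨z, hz⟩ := hz
    exact arc_prog hirr ((√(n : ℝ) - 3) / 2) (by linarith) hδ (fun m => ¬ GoodN n m)
      (fun m _ hbad => window_near hn hbad) k h z hz

/-- the reciprocals of the square roots of numbers with different squarefree parts, and one, are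
linearly independent -/
theorem inv_sqrt_irr {r : ℕ} (n : Fin r → ℕ) (h1 : ∀ j, ¬ IsSquare (n j))
    (h2 : ∀ i j, i ≠ j → ¬ IsSquare (n i * n j)) (h : Fin r → ℤ) (hh : h ≠ 0) :
    Irrational (∑ j, (h j : ℝ) * (√(n j : ℝ))⁻¹) := by
  classical
  choose q s hqs hq using fun j => Nat.sq_mul_squarefree (n j)
  have hq0 : ∀ j, 0 < q j := fun j => Nat.pos_of_ne_zero (hq j).ne_zero
  have hs0 : ∀ j, 0 < s j := by
    intro j
    rcases Nat.eq_zero_or_pos (s j) with h0 | h0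
    · exfalso
      apply h1 j
      rw [← hqs j, h0]
      exact ⟨0, by simp⟩
    · exact h0
  have hq1 : ∀ j, q j ≠ 1 := by
    intro j hj
    apply h1 j
    rw [← hqs j, hj]
    exact ⟨s j, by ring⟩
  have hqi : Function.Injective q := by
    intro i j hij
    by_contra hne
    apply h2 i j hne
    rw [← hqs i, ← hqs j, hij]
    exact ⟨s i * s j * q j, by ring⟩
  -- the index map
  have hinj : Function.Injective (fun j : Fin (r + 1) =>
      (⟨(Fin.cons 1 q : Fin (r + 1) → ℕ) j, by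
        refine Fin.cases ?_ (fun i => ?_) j
        · simpa using squarefree_one
        · simpa using hq i⟩ : {m : ℕ // Squarefree m})) := by
    intro i j hij
    have hij' := congrArg Subtype.val hij
    simp only at hij'
    revert hij'
    refine Fin.cases ?_ (fun i => ?_) i
    · refine Fin.cases (fun _ => rfl) (fun j => ?_) j
      intro h3
      simp only [Fin.cons_zero, Fin.cons_succ] at h3
      exact absurd h3.symm (hq1 j)
    · refine Fin.cases (fun h3 => ?_) (fun j h3 => ?_) j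
      · simp only [Fin.cons_zero, Fin.cons_succ] at h3
        exact absurd h3 (hq1 i)
      · simp only [Fin.cons_succ] at h3
        rw [hqi h3]
  have hlin := Pool.Agent.H383.Gauss.sf_indep.comp _ hinj
  rw [Fintype.linearIndependent_iff] at hlin
  rintro ⟨p, hp⟩
  apply hh
  have h3 := hlin (Fin.cons (-p) (fun j => (h j : ℚ) / (s j * q j))) (by
    rw [Fin.sum_univ_succ]
    simp only [Function.comp, Fin.cons_zero, Fin.cons_succ, Nat.cast_one, Real.sqrt_one]
    have e1 : ∀ j, ((h j : ℚ) / (s j * q j)) • √(q j : ℝ) = (h j : ℝ) * (√(n j : ℝ))⁻¹ := by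
      intro j
      have hqR : (0 : ℝ) < q j := by exact_mod_cast hq0 j
      have hsR : (0 : ℝ) < s j := by exact_mod_cast hs0 j
      have e2 : √(n j : ℝ) = s j * √(q j : ℝ) := by
        rw [← hqs j]
        push_cast
        rw [Real.sqrt_mul (by positivity), Real.sqrt_sq hsR.le]
      have e3 : √(q j : ℝ) * √(q j : ℝ) = q j := Real.mul_self_sqrt hqR.le
      have e4 : (0 : ℝ) < √(q j : ℝ) := Real.sqrt_pos.2 hqR
      rw [e2, Rat.smul_def]
      push_cast
      field_simp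
      rw [Real.sq_sqrt hqR.le]
    rw [sum_congr rfl fun j _ => e1 j, ← hp, Rat.smul_def]
    push_cast
    ring)
  funext j
  have h4 := h3 j.succ
  simp only [Fin.cons_succ] at h4
  have h5 : ((s j : ℚ) * q j) ≠ 0 := by
    have := hs0 j
    have := hq0 j
    positivity
  rw [div_eq_zero_iff] at h4
  rcases h4 with h4 | h4
  · simpa using h4
  · exact absurd h4 h5

/-- **many numbers of points at once** -/
theorem near_joint {r : ℕ} (n : Fin r → ℕ) (h10 : ∀ j, 10 ≤ n j) (h1 : ∀ j, ¬ IsSquare (n j))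
    (h2 : ∀ i j, i ≠ j → ¬ IsSquare (n i * n j)) :
    ∃ w c : ℝ, 0 < w ∧ 0 < c ∧ ∀ k h : ℕ, (∀ j, ∃ z : ℤ, |(√(n j : ℝ))⁻¹ * h - z| * k ≤ w) →
      Always fun μ => c ≤ meas μ (fun W => ∀ j, ∀ i ≤ k, GoodN (n j) (W + i * h)) := by
  classical
  have hg : ∀ j, 0 < (1 - (loW (n j) + upW (n j)) / 2) / 2 := by
    intro j
    obtain ⟨-, -, g3⟩ := win_len (h10 j)
    linarith
  obtain ⟨w, hw0, hw4, hw⟩ : ∃ w : ℝ, 0 < w ∧ w ≤ 1 / 4 ∧
      ∀ j, 3 * w < (1 - (loW (n j) + upW (n j)) / 2) / 2 := by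
    have e1 : ∀ᶠ w : ℝ in nhdsWithin 0 (Set.Ioi 0), 0 < w := eventually_mem_nhdsWithin
    have e2 : ∀ᶠ w : ℝ in nhdsWithin 0 (Set.Ioi 0), w ≤ 1 / 4 :=
      (nhdsWithin_le_nhds) (Iic_mem_nhds (by norm_num))
    have e3 : ∀ᶠ w : ℝ in nhdsWithin 0 (Set.Ioi 0),
        ∀ j, 3 * w < (1 - (loW (n j) + upW (n j)) / 2) / 2 := by
      rw [eventually_all]
      intro j
      have h3 : ∀ᶠ w : ℝ in nhds 0, w < (1 - (loW (n j) + upW (n j)) / 2) / 2 / 3 :=
        Iio_mem_nhds (by have := hg j; positivity)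
      refine (nhdsWithin_le_nhds) ?_
      filter_upwards [h3] with w hw
      linarith
    obtain ⟨w, h3, h4, h5⟩ := (e1.and (e2.and e3)).exists
    exact ⟨w, h3, h4, h5⟩
  have e2 : 0 < w ^ r := pow_pos hw0 r
  refine ⟨w, w ^ r / 2, hw0, by linarith, fun k h hz => ?_⟩
  have h3 := always_box (r := r) (fun j => (√(n j : ℝ))⁻¹) (inv_sqrt_irr n h1 h2)
    (fun j => (√(n j : ℝ) - 3) / 2) (fun j => (1 + loW (n j) / 2 - upW (n j) / 2) / 2) w w
    ((2 * w) ^ r - w ^ r / 2) hw0.le (by linarith) hw0 (by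
      have e1 : w ^ r ≤ (2 * w) ^ r := pow_le_pow_left₀ hw0.le (by linarith) r
      linarith) 0 (fun W => ∀ j, ∀ i ≤ k, GoodN (n j) (W + i * h)) (fun W _ hW j i hi => by
      by_contra hbad
      obtain ⟨z', hz'⟩ := hW j
      obtain ⟨y, hy⟩ := hz j
      have h5 := shift_win (α := (√(n j : ℝ))⁻¹) (β := (√(n j : ℝ) - 3) / 2) (m := W) (w := z' + i * y) hi hy
      have e1 : ((z' + i * y - i * y : ℤ) : ℝ) = z' := by
        push_cast
        ring
      rw [e1] at h5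
      obtain ⟨v, hv1, hv2⟩ := window_near (h10 j) hbad
      have hwj := hw j
      rw [abs_le] at h5 hz'
      obtain ⟨a1, a2⟩ := h5
      obtain ⟨a3, a4⟩ := hz'
      rcases le_or_gt v (z' + i * y) with hD | hD
      · have hD' : (v : ℝ) ≤ ((z' + i * y : ℤ) : ℝ) := by exact_mod_cast hD
        linarith
      · have hD' : ((z' + i * y : ℤ) : ℝ) + 1 ≤ (v : ℝ) := by exact_mod_cast hD
        linarith)
  rwa [sub_sub_cancel] at h3

/-- **random sums** -/
theorem always_sums (F : Finset ℕ) (hF : ∀ n ∈ F, 10 ≤ n) : ∃ c : ℝ, 0 < c ∧ ∀ (k : ℕ) (δ : ℝ), 0 < δ →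
    ∃ h : ℕ, 1 ≤ h ∧ Always fun μ =>
      (∀ n ∈ F, meas μ (fun W => ∃ j ≤ k, ¬ GoodN n (W + j * h)) ≤ badN n + δ) ∧
      ((∀ n ∈ F, ∀ n' ∈ F, n ≠ n' → ¬ IsSquare (n * n')) →
        c ≤ meas μ (fun W => ∀ n ∈ F, ∀ j ≤ k, GoodN n (W + j * h))) := by
  classical
  obtain ⟨G, hG⟩ : ∃ G, G = F.filter (fun n => ¬ IsSquare n) := ⟨_, rfl⟩
  have hGF : ∀ n ∈ G, n ∈ F ∧ ¬ IsSquare n := by
    intro n hn
    rwa [hG, mem_filter] at hn
  obtain ⟨w, c, hw, hc, hwc⟩ : ∃ w c : ℝ, 0 < w ∧ 0 < c ∧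
      ((∀ n ∈ F, ∀ n' ∈ F, n ≠ n' → ¬ IsSquare (n * n')) → ∀ k h : ℕ,
        (∀ n ∈ F, ∃ z : ℤ, |(√(n : ℝ))⁻¹ * h - z| * k ≤ w) →
        Always fun μ => c ≤ meas μ (fun W => ∀ n ∈ F, ∀ j ≤ k, GoodN n (W + j * h))) := by
    by_cases hP : ∀ n ∈ F, ∀ n' ∈ F, n ≠ n' → ¬ IsSquare (n * n')
    · obtain ⟨w, c, hw, hc, h1⟩ := near_joint (fun j : Fin G.card => ((G.equivFin.symm j : G) : ℕ))
        (fun j => hF _ (hGF _ (G.equivFin.symm j).2).1)
        (fun j => (hGF _ (G.equivFin.symm j).2).2)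
        (fun i j hij => hP _ (hGF _ (G.equivFin.symm i).2).1 _ (hGF _ (G.equivFin.symm j).2).1
          fun he => hij (G.equivFin.symm.injective (Subtype.ext he)))
      refine ⟨w, c, hw, hc, fun _ k h hz => ?_⟩
      have hsub : ∀ j : Fin G.card, ((G.equivFin.symm j : G) : ℕ) ∈ F := fun j =>
        (hGF _ (G.equivFin.symm j).2).1
      refine Pool.Agent.N794.DG.Always.mono (h1 k h fun j => hz _ (hsub j)) fun μ hμ h2 => ?_
      refine h2.trans (meas_mono hμ fun W hW n hn i hi => ?_)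
      by_cases hsq : IsSquare n
      · exact good_sq (hF n hn) hsq _
      · have hnG : n ∈ G := by
          rw [hG, mem_filter]
          exact ⟨hn, hsq⟩
        have h3 := hW (G.equivFin ⟨n, hnG⟩) i hi
        simpa using h3
    · exact ⟨1, 1, one_pos, one_pos, fun h => absurd h hP⟩
  refine ⟨c, hc, fun k δ hδ => ?_⟩
  obtain ⟨h, hh, hz⟩ := dirichlet (fun n : F => (√(((n : ℕ)) : ℝ))⁻¹)
    (η := min w (δ / 4) / (k + 1)) (by
      have := lt_min hw (show 0 < δ / 4 by linarith)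
      positivity)
  have hz' : ∀ n ∈ F, ∃ z : ℤ, |(√(n : ℝ))⁻¹ * h - z| * k ≤ min w (δ / 4) := by
    intro n hn
    obtain ⟨z, hz⟩ := hz ⟨n, hn⟩
    refine ⟨z, ?_⟩
    have hk0 : (0 : ℝ) ≤ k := Nat.cast_nonneg k
    have h1 : |(√(n : ℝ))⁻¹ * h - z| * k ≤ min w (δ / 4) / (k + 1) * k :=
      mul_le_mul_of_nonneg_right hz hk0
    refine h1.trans ?_
    rw [div_mul_eq_mul_div, div_le_iff₀ (by linarith)]
    have h2 : 0 ≤ min w (δ / 4) := le_min hw.le (by linarith)
    nlinarith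
  refine ⟨h, hh, ?_⟩
  obtain ⟨N, hN⟩ : ∃ N : ℕ, ∀ n ∈ F, n < N := ⟨F.sup id + 1, fun n hn => Nat.lt_succ_of_le (F.le_sup (f := id) hn)⟩
  have h1 := Always.all (fun n μ => n ∈ F → meas μ (fun W => ∃ j ≤ k, ¬ GoodN n (W + j * h)) ≤ badN n + δ) N
    (fun n _ => by
      by_cases hn : n ∈ F
      · obtain ⟨z, hz⟩ := hz' n hn
        exact Pool.Agent.N794.DG.Always.mono (near_prog (hF n hn) k h hδ ⟨z, hz.trans (min_le_right _ _)⟩)
          fun μ _ h2 _ => h2
      · exact Pool.Agent.N794.DG.Always.mono always_true fun μ _ _ h2 => absurd h2 hn)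
  by_cases hP : ∀ n ∈ F, ∀ n' ∈ F, n ≠ n' → ¬ IsSquare (n * n')
  · have h2 := hwc hP k h fun n hn => by
      obtain ⟨z, hz⟩ := hz' n hn
      exact ⟨z, hz.trans (min_le_left _ _)⟩
    exact Pool.Agent.N794.DG.Always.mono (Always.both h1 h2) fun μ _ h3 =>
      ⟨fun n hn => h3.1 n (hN n hn) hn, fun _ => h3.2⟩
  · exact Pool.Agent.N794.DG.Always.mono h1 fun μ _ h3 => ⟨fun n hn => h3 n (hN n hn) hn, fun h4 => absurd h4 hP⟩

end Pool.Agent.W2helper30.FP
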